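import Pool.Agent.Helper36_X1.Stmts2
import Pool.Agent.Helper94_PP.StmtsKR

/-!
LB3: the label determines the representation.
-/

open scoped BigOperators

noncomputable section

namespace Pool.Agent.PP.X1.H14

open Pool.Agent.Helper51_AWC Pool.Agent.Helper79_WRA Pool.Agent.PP Pool.Agent.PP.X1

variable {F : Type} [Field F] {G : Type} [Group G]

/-! ### Block diagonal representations -/

section blocks

variable {k k' : ℕ}

/-- the vector `(v, v')` -/
def pr (v : Fin k → F) (v' : Fin k' → F) : Fin (k + k') → F :=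
  Sum.elim v v' ∘ finSumFinEquiv.symm

/-- block diagonal matrices -/
def bd (A : Matrix (Fin k) (Fin k) F) (A' : Matrix (Fin k') (Fin k') F) :
    Matrix (Fin (k + k')) (Fin (k + k')) F :=
  (Matrix.fromBlocks A 0 0 A').submatrix finSumFinEquiv.symm finSumFinEquiv.symm

theorem bd_mulVec (A : Matrix (Fin k) (Fin k) F) (A' : Matrix (Fin k') (Fin k') F)
    (v : Fin k → F) (v' : Fin k' → F) :
    (bd A A').mulVec (pr v v') = pr (A.mulVec v) (A'.mulVec v') := by
  unfold bd pr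
  rw [Matrix.submatrix_mulVec_equiv]
  congr 1
  rw [Function.comp_assoc, Equiv.symm_symm, Equiv.symm_comp_self, Function.comp_id,
    Matrix.fromBlocks_mulVec]
  simp

theorem bd_mul (A B : Matrix (Fin k) (Fin k) F) (A' B' : Matrix (Fin k') (Fin k') F) :
    bd A A' * bd B B' = bd (A * B) (A' * B') := by
  unfold bd
  rw [Matrix.submatrix_mul_equiv, Matrix.fromBlocks_multiply]
  simp

theorem bd_one : bd (1 : Matrix (Fin k) (Fin k) F) (1 : Matrix (Fin k') (Fin k') F) = 1 := by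
  unfold bd
  rw [Matrix.fromBlocks_one, Matrix.submatrix_one_equiv]

theorem bd_zero : bd (0 : Matrix (Fin k) (Fin k) F) (0 : Matrix (Fin k') (Fin k') F) = 0 := by
  unfold bd
  rw [Matrix.fromBlocks_zero]
  rfl

theorem bd_add (A B : Matrix (Fin k) (Fin k) F) (A' B' : Matrix (Fin k') (Fin k') F) :
    bd (A + B) (A' + B') = bd A A' + bd B B' := by
  have h : Matrix.fromBlocks (A + B) 0 0 (A' + B')
      = Matrix.fromBlocks A 0 0 A' + Matrix.fromBlocks B 0 0 B' := by
    rw [Matrix.fromBlocks_add]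
    simp
  unfold bd
  rw [h]
  rfl

theorem bd_sum {ι : Type} (s : Finset ι) (A : ι → Matrix (Fin k) (Fin k) F)
    (A' : ι → Matrix (Fin k') (Fin k') F) :
    bd (∑ i ∈ s, A i) (∑ i ∈ s, A' i) = ∑ i ∈ s, bd (A i) (A' i) := by
  classical
  induction s using Finset.induction_on with
  | empty => simp [bd_zero]
  | insert a s ha ih => rw [Finset.sum_insert ha, Finset.sum_insert ha, Finset.sum_insert ha,
      bd_add, ih]

theorem pr_add (v w : Fin k → F) (v' w' : Fin k' → F) : pr (v + w) (v' + w') = pr v v' + pr w w' := by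
  funext x
  unfold pr
  simp only [Function.comp, Pi.add_apply]
  cases finSumFinEquiv.symm x <;> rfl

theorem pr_smul (c : F) (v : Fin k → F) (v' : Fin k' → F) : pr (c • v) (c • v') = c • pr v v' := by
  funext x
  unfold pr
  simp only [Function.comp, Pi.smul_apply]
  cases finSumFinEquiv.symm x <;> rfl

theorem pr_zero : pr (0 : Fin k → F) (0 : Fin k' → F) = 0 := by
  funext x
  unfold pr
  simp only [Function.comp, Pi.zero_apply]
  cases finSumFinEquiv.symm x <;> rfl

theorem pr_inj {v w : Fin k → F} {v' w' : Fin k' → F} (h : pr v v' = pr w w') : v = w ∧ v' = w' := by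
  constructor
  · funext x
    have := congrFun h (finSumFinEquiv (Sum.inl x))
    simpa [pr] using this
  · funext x
    have := congrFun h (finSumFinEquiv (Sum.inr x))
    simpa [pr] using this

variable {P : Subgroup G}

/-- the sum of two representations -/
def sr (ρ : P →* Matrix (Fin k) (Fin k) F) (ρ' : P →* Matrix (Fin k') (Fin k') F) :
    P →* Matrix (Fin (k + k')) (Fin (k + k')) F where
  toFun g := bd (ρ g) (ρ' g)
  map_one' := by rw [map_one, map_one, bd_one]
  map_mul' g h := by rw [map_mul, map_mul, bd_mul]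

theorem ro_sr (ρ : P →* Matrix (Fin k) (Fin k) F) (ρ' : P →* Matrix (Fin k') (Fin k') F) (g : G) :
    ro (sr ρ ρ') g = bd (ro ρ g) (ro ρ' g) := by
  by_cases h : g ∈ P
  · rw [ro_mem _ h, ro_mem _ h, ro_mem _ h]
    rfl
  · unfold ro
    rw [dif_neg h, dif_neg h, dif_neg h, bd_zero]

variable {ℓ : ℕ} [Finite G]

theorem Ai_sr (R : RGD ℓ G) (ρ : P →* Matrix (Fin k) (Fin k) F)
    (ρ' : P →* Matrix (Fin k') (Fin k') F) (i : Fin R.r) :
    Ai R (sr ρ ρ') i = bd (Ai R ρ i) (Ai R ρ' i) := by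
  have := Fintype.ofFinite (R.X (R.a i))
  unfold Ai
  rw [finsum_eq_sum_of_fintype, finsum_eq_sum_of_fintype, finsum_eq_sum_of_fintype, bd_sum]
  exact Finset.sum_congr rfl fun x _ => ro_sr ρ ρ' _

end blocks

/-- a nonzero subspace stable under an irreducible representation is everything -/
theorem irr_top {H : Type} [Group H] {n : ℕ} {σ : H →* Matrix (Fin n) (Fin n) F} (hσ : IsIrr σ)
    (S : Submodule F (Fin n → F)) (hS : ∀ h, ∀ v ∈ S, (σ h).mulVec v ∈ S) (h0 : ∃ v ∈ S, v ≠ 0) :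
    ∀ v, v ∈ S := by
  obtain ⟨v0, hv0, hne⟩ := h0
  have h1 : ∀ M : Matrix (Fin n) (Fin n) F, M.mulVec v0 ∈ S := by
    intro M
    have hM : M ∈ Submodule.span F (Set.range σ) := by rw [hσ.2]; trivial
    induction hM using Submodule.span_induction with
    | mem x hx =>
      obtain ⟨h, rfl⟩ := hx
      exact hS h v0 hv0
    | zero => rw [Matrix.zero_mulVec]; exact S.zero_mem
    | add x y _ _ hx hy => rw [Matrix.add_mulVec]; exact S.add_mem hx hy
    | smul c x _ hx => rw [Matrix.smul_mulVec]; exact S.smul_mem c hx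
  obtain ⟨j, hj⟩ := Function.ne_iff.1 hne
  intro v
  have h2 := h1 (Matrix.vecMulVec v (Pi.single j (v0 j)⁻¹))
  have h3 : (Matrix.vecMulVec v (Pi.single j (v0 j)⁻¹)).mulVec v0 = v := by
    funext x
    rw [Matrix.mulVec, dotProduct]
    rw [Finset.sum_eq_single j]
    · rw [Matrix.vecMulVec_apply, Pi.single_eq_same, mul_assoc, inv_mul_cancel₀ hj, mul_one]
    · intro y _ hy
      rw [Matrix.vecMulVec_apply, Pi.single_eq_of_ne hy, mul_zero, zero_mul]
    · intro h; exact absurd (Finset.mem_univ _) h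
  rwa [h3] at h2

variable {ℓ : ℕ} [Finite G]

/-- the dual representation -/
def du {P : Subgroup G} {k : ℕ} (ρ : P →* Matrix (Fin k) (Fin k) F) :
    P →* Matrix (Fin k) (Fin k) F where
  toFun g := (ρ g⁻¹).transpose
  map_one' := by rw [inv_one, map_one, Matrix.transpose_one]
  map_mul' g h := by rw [mul_inv_rev, map_mul, Matrix.transpose_mul]

omit [Finite G] in
theorem du_irr {P : Subgroup G} {k : ℕ} {ρ : P →* Matrix (Fin k) (Fin k) F} (hρ : IsIrr ρ) :
    IsIrr (du ρ) := by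
  refine ⟨hρ.1, ?_⟩
  have key : ∀ N ∈ Submodule.span F (Set.range ρ),
      N.transpose ∈ Submodule.span F (Set.range (du ρ)) := by
    intro N hN
    induction hN using Submodule.span_induction with
    | mem x hx =>
      obtain ⟨h, rfl⟩ := hx
      apply Submodule.subset_span
      refine ⟨h⁻¹, ?_⟩
      change (ρ h⁻¹⁻¹).transpose = _
      rw [inv_inv]
    | zero => rw [Matrix.transpose_zero]; exact Submodule.zero_mem _
    | add x y _ _ hx hy => rw [Matrix.transpose_add]; exact Submodule.add_mem _ hx hy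
    | smul c x _ hx => rw [Matrix.transpose_smul]; exact Submodule.smul_mem _ c hx
  rw [eq_top_iff]
  intro M _
  have h1 := key M.transpose (by rw [hρ.2]; trivial)
  rwa [Matrix.transpose_transpose] at h1

/-- a nonzero functional fixed by `U` -/
theorem exists_fun (hvui : VuiStmt) [Fact ℓ.Prime] (hF : GoodF ℓ F) (R : RGD ℓ G)
    (J : Finset (Fin R.r)) {k : ℕ} {ρ : R.PJ J →* Matrix (Fin k) (Fin k) F} (hρ : IsIrr ρ) :
    ∃ φ : (Fin k → F) →ₗ[F] F, φ ≠ 0 ∧ ∀ u ∈ R.U, ∀ v, φ ((ro ρ u).mulVec v) = φ v := by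
  have h1 := (hvui ℓ F hF G R J k (du ρ) (du_irr hρ)).1
  obtain ⟨w, hw, hne⟩ := Submodule.exists_mem_ne_zero_of_ne_bot h1
  refine ⟨{ toFun := fun v => w ⬝ᵥ v
            map_add' := fun x y => dotProduct_add w x y
            map_smul' := fun c x => by rw [dotProduct_smul]; rfl }, ?_, ?_⟩
  · intro h0
    apply hne
    funext j
    have h2 := LinearMap.congr_fun h0 (Pi.single j 1)
    change w ⬝ᵥ Pi.single j 1 = 0 at h2
    rw [dotProduct_single, mul_one] at h2
    exact h2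
  · intro u hu v
    change w ⬝ᵥ (ro ρ u).mulVec v = w ⬝ᵥ v
    by_cases hP : u ∈ R.PJ J
    · have h3 := hw u⁻¹ (R.U.inv_mem hu)
      have h4 : ro (du ρ) u⁻¹ = (ro ρ u).transpose := by
        rw [ro_mem _ (inv_mem hP), ro_mem _ hP]
        change (ρ (⟨u⁻¹, inv_mem hP⟩ : R.PJ J)⁻¹).transpose = _
        congr 2
        apply Subtype.ext
        change u⁻¹⁻¹ = u
        exact inv_inv u
      rw [h4] at h3
      rw [Matrix.dotProduct_mulVec, ← Matrix.mulVec_transpose, h3]
    · exfalso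
      apply hP
      have : R.U ≤ R.PJ J := (R.gp_mono Set.subset_union_left).trans le_sup_right
      exact this hu

/-- every functional on the representation of the label is the restriction of a functional fixed by
`U` to the image under a longest word -/
theorem exists_ext (hvui : VuiStmt) [Fact ℓ.Prime] (hF : GoodF ℓ F) (R : RGD ℓ G)
    (J : Finset (Fin R.r)) {k m : ℕ} {ρ : R.PJ J →* Matrix (Fin k) (Fin k) F} (hρ : IsIrr ρ)
    {σ : R.B →* Matrix (Fin m) (Fin m) F} (hσ : IsIrr σ) (X : Matrix (Fin k) (Fin m) F)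
    (Y : Matrix (Fin m) (Fin k) F) (hYX : Y * X = 1)
    (hX : ∀ b ∈ R.B, ro ρ b * X = X * ro σ b) (hfx : ∀ v ∈ fx R.U ρ, ∃ c, v = X.mulVec c)
    (w : List (Fin R.r)) (hw : ∀ j ∈ w, j ∈ J) (hneg : ∀ b ∈ R.pos ∩ R.lev J, R.sw w b ∈ R.neg)
    (hwP : R.nw w ∈ R.PJ J) :
    (∀ c, X.mulVec c ∈ fx R.U ρ) ∧ ∀ θ : (Fin m → F) →ₗ[F] F, ∃ φ : (Fin k → F) →ₗ[F] F,
      (∀ u ∈ R.U, ∀ v, φ ((ro ρ u).mulVec v) = φ v) ∧
      ∀ c, φ ((ro ρ (R.nw w)).mulVec (X.mulVec c)) = θ c := by
  have hBP : R.B ≤ R.PJ J :=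
    sup_le_sup_left (R.gp_mono Set.subset_union_left) _
  have hUP : R.U ≤ R.PJ J := R.U_le_B.trans hBP
  have hvu := hvui ℓ F hF G R J k ρ hρ
  -- the image of `X` consists of fixed points
  have h1 : ∀ c, X.mulVec c ∈ fx R.U ρ := by
    let S : Submodule F (Fin m → F) :=
      { carrier := {c | X.mulVec c ∈ fx R.U ρ}
        add_mem' := by
          intro a b ha hb
          change X.mulVec (a + b) ∈ fx R.U ρ
          rw [Matrix.mulVec_add]
          exact Submodule.add_mem _ ha hb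
        zero_mem' := by
          change X.mulVec 0 ∈ fx R.U ρ
          rw [Matrix.mulVec_zero]
          exact Submodule.zero_mem _
        smul_mem' := by
          intro a b hb
          change X.mulVec (a • b) ∈ fx R.U ρ
          rw [Matrix.mulVec_smul]
          exact Submodule.smul_mem _ a hb }
    refine irr_top hσ S ?_ ?_
    · intro b c hc
      change X.mulVec ((σ b).mulVec c) ∈ fx R.U ρ
      have e1 : X.mulVec ((σ b).mulVec c) = (ro ρ b).mulVec (X.mulVec c) := by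
        rw [Matrix.mulVec_mulVec, Matrix.mulVec_mulVec, hX b b.2, ro_coe]
      rw [e1]
      intro u hu
      have e2 : (b : G)⁻¹ * u * b ∈ R.U := by
        have := R.B_U (R.B.inv_mem b.2) hu
        rwa [inv_inv] at this
      have e3 : u * (b : G) = b * ((b : G)⁻¹ * u * b) := by group
      rw [Matrix.mulVec_mulVec, ← ro_mul ρ (hUP hu) (hBP b.2), e3,
        ro_mul ρ (hBP b.2) (hUP e2), ← Matrix.mulVec_mulVec, hc _ e2]
    · obtain ⟨v, hv, hne⟩ := Submodule.exists_mem_ne_zero_of_ne_bot hvu.1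
      obtain ⟨c, rfl⟩ := hfx v hv
      refine ⟨c, hv, ?_⟩
      rintro rfl
      rw [Matrix.mulVec_zero] at hne
      exact hne rfl
  refine ⟨h1, ?_⟩
  -- the functionals which are restrictions
  let Θ : Submodule F ((Fin m → F) →ₗ[F] F) :=
    { carrier := {θ | ∃ φ : (Fin k → F) →ₗ[F] F, (∀ u ∈ R.U, ∀ v, φ ((ro ρ u).mulVec v) = φ v) ∧
        ∀ c, φ ((ro ρ (R.nw w)).mulVec (X.mulVec c)) = θ c}
      add_mem' := by
        rintro a b ⟨φ, hφ, hφ'⟩ ⟨ψ, hψ, hψ'⟩
        refine ⟨φ + ψ, fun u hu v => ?_, fun c => ?_⟩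
        · rw [LinearMap.add_apply, LinearMap.add_apply, hφ u hu, hψ u hu]
        · rw [LinearMap.add_apply, LinearMap.add_apply, hφ', hψ']
      zero_mem' := ⟨0, fun _ _ _ => rfl, fun _ => rfl⟩
      smul_mem' := by
        rintro a b ⟨φ, hφ, hφ'⟩
        refine ⟨a • φ, fun u hu v => ?_, fun c => ?_⟩
        · rw [LinearMap.smul_apply, LinearMap.smul_apply, hφ u hu]
        · rw [LinearMap.smul_apply, LinearMap.smul_apply, hφ'] }
  have hstab : ∀ (b : R.B) (θ : (Fin m → F) →ₗ[F] F), θ ∈ Θ →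
      θ ∘ₗ (Matrix.mulVecLin (σ b)) ∈ Θ := by
    rintro b θ ⟨φ, hφ, hφ'⟩
    obtain ⟨u, hu, t, ht, hb⟩ := R.mem_B.mp b.2
    set t' := R.nw w * t * (R.nw w)⁻¹ with ht'
    have ht'T : t' ∈ R.T := R.T_nw.mpr ht
    have ht'P : t' ∈ R.PJ J := hBP (R.T_le_B ht'T)
    refine ⟨φ ∘ₗ Matrix.mulVecLin (ro ρ t'), ?_, ?_⟩
    · intro x hx v
      change φ ((ro ρ t').mulVec ((ro ρ x).mulVec v)) = φ ((ro ρ t').mulVec v)
      have e1 : t' * x * t'⁻¹ ∈ R.U := R.T_gp R.pos_sub ht'T hx
      have e2 : t' * x = t' * x * t'⁻¹ * t' := by group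
      rw [Matrix.mulVec_mulVec, ← ro_mul ρ ht'P (hUP hx), e2, ro_mul ρ (hUP e1) ht'P,
        ← Matrix.mulVec_mulVec, hφ _ e1]
    · intro c
      change φ ((ro ρ t').mulVec ((ro ρ (R.nw w)).mulVec (X.mulVec c))) = θ ((σ b).mulVec c)
      have e1 : t' * R.nw w = R.nw w * t := by rw [ht']; group
      have htB : t ∈ R.B := R.T_le_B ht
      have hub : (ro σ u).mulVec ((ro σ t).mulVec c) = (ro σ t).mulVec c := by
        have e4 : X.mulVec ((ro σ u).mulVec ((ro σ t).mulVec c))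
            = X.mulVec ((ro σ t).mulVec c) := by
          rw [Matrix.mulVec_mulVec, ← hX u (R.U_le_B hu), ← Matrix.mulVec_mulVec]
          exact h1 _ u hu
        have e5 := congrArg (fun z => Y.mulVec z) e4
        simp only [Matrix.mulVec_mulVec] at e5
        rw [← Matrix.mul_assoc, ← Matrix.mul_assoc, hYX, Matrix.one_mul, ← Matrix.mul_assoc, hYX,
          Matrix.one_mul] at e5
        rw [Matrix.mulVec_mulVec]
        exact e5
      have e6 : (σ b).mulVec c = (ro σ t).mulVec c := by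
        rw [← ro_coe σ b, hb, ro_mul σ (R.U_le_B hu) htB, ← Matrix.mulVec_mulVec, hub]
      rw [e6, ← hφ', Matrix.mulVec_mulVec, ← ro_mul ρ ht'P hwP, e1, ro_mul ρ hwP (hBP htB),
        ← Matrix.mulVec_mulVec]
      congr 2
      rw [Matrix.mulVec_mulVec, Matrix.mulVec_mulVec, hX t htB]
  have hstab2 : ∀ (M : Matrix (Fin m) (Fin m) F) (θ : (Fin m → F) →ₗ[F] F), θ ∈ Θ →
      θ ∘ₗ (Matrix.mulVecLin M) ∈ Θ := by
    intro M θ hθ
    have hM : M ∈ Submodule.span F (Set.range σ) := by rw [hσ.2]; trivial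
    induction hM using Submodule.span_induction with
    | mem x hx =>
      obtain ⟨h, rfl⟩ := hx
      exact hstab h θ hθ
    | zero =>
      have : θ ∘ₗ Matrix.mulVecLin (0 : Matrix (Fin m) (Fin m) F) = 0 := by
        apply LinearMap.ext
        intro c
        change θ ((0 : Matrix (Fin m) (Fin m) F).mulVec c) = 0
        rw [Matrix.zero_mulVec, map_zero]
      rw [this]
      exact Θ.zero_mem
    | add x y _ _ hx hy =>
      have : θ ∘ₗ Matrix.mulVecLin (x + y) = θ ∘ₗ Matrix.mulVecLin x + θ ∘ₗ Matrix.mulVecLin y := by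
        apply LinearMap.ext
        intro c
        change θ ((x + y).mulVec c) = θ (x.mulVec c) + θ (y.mulVec c)
        rw [Matrix.add_mulVec, map_add]
      rw [this]
      exact Θ.add_mem hx hy
    | smul c x _ hx =>
      have : θ ∘ₗ Matrix.mulVecLin (c • x) = c • (θ ∘ₗ Matrix.mulVecLin x) := by
        apply LinearMap.ext
        intro d
        change θ ((c • x).mulVec d) = c • θ (x.mulVec d)
        rw [Matrix.smul_mulVec, map_smul]
      rw [this]
      exact Θ.smul_mem c hx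
  -- a nonzero one
  obtain ⟨φ0, hne, hφ0⟩ := exists_fun hvui hF R J hρ
  let θ0 : (Fin m → F) →ₗ[F] F :=
    φ0 ∘ₗ Matrix.mulVecLin (ro ρ (R.nw w)) ∘ₗ Matrix.mulVecLin X
  have hθ0 : θ0 ∈ Θ := ⟨φ0, hφ0, fun c => rfl⟩
  have hθne : ∃ c0, θ0 c0 ≠ 0 := by
    by_contra hcon
    push Not at hcon
    apply hne
    apply hvu.2.2.2.2 φ0 hφ0 w hw hneg
    intro v hv
    obtain ⟨c, rfl⟩ := hfx v hv
    exact hcon c
  obtain ⟨c0, hc0⟩ := hθne
  intro θ
  have h2 := hstab2 (Matrix.of fun i j => c0 i * (θ0 c0)⁻¹ * θ (Pi.single j 1)) θ0 hθ0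
  have h3 : θ0 ∘ₗ Matrix.mulVecLin (Matrix.of fun i j => c0 i * (θ0 c0)⁻¹ * θ (Pi.single j 1))
      = θ := by
    apply LinearMap.ext
    intro c
    have e1 : (Matrix.of fun i j => c0 i * (θ0 c0)⁻¹ * θ (Pi.single j 1)).mulVec c
        = ((θ0 c0)⁻¹ * θ c) • c0 := by
      funext i
      rw [Matrix.mulVec, dotProduct, Pi.smul_apply, smul_eq_mul]
      have e2 : θ c = ∑ j, c j * θ (Pi.single j 1) := by
        conv_lhs => rw [LinearMap.pi_apply_eq_sum_univ θ c]
        apply Finset.sum_congr rfl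
        intro j _
        rw [smul_eq_mul]
        congr 2
        funext x
        rw [Pi.single_apply]
        congr 1
        exact propext ⟨Eq.symm, Eq.symm⟩
      rw [e2, Finset.mul_sum, Finset.sum_mul]
      apply Finset.sum_congr rfl
      intro j _
      rw [Matrix.of_apply]
      ring
    change θ0 ((Matrix.of fun i j => c0 i * (θ0 c0)⁻¹ * θ (Pi.single j 1)).mulVec c) = θ c
    rw [e1, map_smul, smul_eq_mul, mul_comm (θ0 c0)⁻¹, mul_assoc, inv_mul_cancel₀ hc0, mul_one]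
  rw [h3] at h2
  exact h2

theorem lb3 (hC : IbcStmt) (hJ : IbjStmt) (hlng : LngStmt) (hbru : BruhStmt) (hcyc : CycxStmt)
    (hvui : VuiStmt) (hlb1 : Lb1Stmt) : Lb3Stmt := by
  intro ℓ _ F _ hF G _ _ R J k k' m m' ρ ρ' σ σ' K hL hL' htr
  obtain ⟨hρ, hσ, hKJ, X, Y, hYX, hX, hfx, -⟩ := id hL
  obtain ⟨hρ', hσ', -, X', Y', hYX', hX', hfx', -⟩ := id hL'
  by_contra hne
  obtain ⟨S, S', hmm, hSS', hS'S, hSσ⟩ := hC ℓ F hF R.B m m' σ σ' hσ hσ' htr
  obtain ⟨w, hw, hneg⟩ := (hlng ℓ G R J).2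
  have hwP : R.nw w ∈ R.PJ J := (hbru ℓ G R).1 J w hw
  have hBP : R.B ≤ R.PJ J := sup_le_sup_left (R.gp_mono Set.subset_union_left) _
  have hUP : R.U ≤ R.PJ J := R.U_le_B.trans hBP
  obtain ⟨g1, g2⟩ := exists_ext hvui hF R J hρ hσ X Y hYX hX hfx w hw hneg hwP
  obtain ⟨g1', g2'⟩ := exists_ext hvui hF R J hρ' hσ' X' Y' hYX' hX' hfx' w hw hneg hwP
  have hSro : ∀ b ∈ R.B, S * ro σ b = ro σ' b * S := by
    intro b hb
    rw [ro_mem σ hb, ro_mem σ' hb]
    exact hSσ _
  -- the functionals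
  have hm : 0 < m := hσ.1
  obtain ⟨φ, hφ, hφ1⟩ := g2 (LinearMap.proj (⟨0, hm⟩ : Fin m))
  obtain ⟨φ', hφ', hφ1'⟩ := g2' (-((LinearMap.proj (⟨0, hm⟩ : Fin m)) ∘ₗ Matrix.mulVecLin S'))
  have hsum : ∀ c : Fin m → F, φ ((ro ρ (R.nw w)).mulVec (X.mulVec c)) +
      φ' ((ro ρ' (R.nw w)).mulVec (X'.mulVec (S.mulVec c))) = 0 := by
    intro c
    rw [hφ1, hφ1']
    change c ⟨0, hm⟩ + -((S'.mulVec (S.mulVec c)) ⟨0, hm⟩) = 0
    rw [Matrix.mulVec_mulVec, hS'S, Matrix.one_mulVec, add_neg_cancel]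
  -- the subspace
  let L : Submodule F (Fin (k + k') → F) :=
    { carrier := {x | ∃ c : Fin m → F, x = pr (X.mulVec c) (X'.mulVec (S.mulVec c))}
      add_mem' := by
        rintro _ _ ⟨c, rfl⟩ ⟨d, rfl⟩
        refine ⟨c + d, ?_⟩
        rw [Matrix.mulVec_add, Matrix.mulVec_add, Matrix.mulVec_add, pr_add]
      zero_mem' := by
        refine ⟨0, ?_⟩
        rw [Matrix.mulVec_zero, Matrix.mulVec_zero, Matrix.mulVec_zero, pr_zero]
      smul_mem' := by
        rintro a _ ⟨c, rfl⟩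
        refine ⟨a • c, ?_⟩
        rw [Matrix.mulVec_smul, Matrix.mulVec_smul, Matrix.mulVec_smul, pr_smul] }
  have hLfx : L ≤ fx R.U (sr ρ ρ') := by
    rintro _ ⟨c, rfl⟩ u hu
    rw [ro_sr, bd_mulVec, g1 c u hu, g1' (S.mulVec c) u hu]
  have hLT : TS R (sr ρ ρ') L := by
    rintro t ht _ ⟨c, rfl⟩
    refine ⟨(ro σ t).mulVec c, ?_⟩
    have htB := R.T_le_B ht
    rw [ro_sr, bd_mulVec]
    congr 1
    · rw [Matrix.mulVec_mulVec, Matrix.mulVec_mulVec, hX t htB]
    · rw [Matrix.mulVec_mulVec, Matrix.mulVec_mulVec, Matrix.mulVec_mulVec, Matrix.mulVec_mulVec,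
        hX' t htB, Matrix.mul_assoc, ← hSro t htB, Matrix.mul_assoc]
  have hLA : AS R J (sr ρ ρ') L := by
    rintro i hi _ ⟨c, rfl⟩
    have e1 := (hlb1 ℓ F hF G R J).2 k m ρ σ K hL
    have e2 := (hlb1 ℓ F hF G R J).2 k' m' ρ' σ' K hL'
    have e3 := e1.2 X hX i hi
    have e4 := e2.2 X' hX' i hi
    have e5 : (Ai R ρ i).mulVec (X.mulVec c) = (if i ∈ K then -X else 0).mulVec c := by
      rw [Matrix.mulVec_mulVec, e3]
    have e6 : (Ai R ρ' i).mulVec (X'.mulVec (S.mulVec c))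
        = (if i ∈ K then -X' else 0).mulVec (S.mulVec c) := by
      have e7 : (Ai R ρ' i).mulVec (X'.mulVec (S.mulVec c))
          = (Ai R ρ' i * X').mulVec (S.mulVec c) := Matrix.mulVec_mulVec _ _ _
      rw [e7, e4]
    rw [Ai_sr, bd_mulVec, e5, e6]
    by_cases hiK : i ∈ K
    · rw [if_pos hiK, if_pos hiK]
      refine ⟨-c, ?_⟩
      rw [Matrix.mulVec_neg, Matrix.mulVec_neg, Matrix.mulVec_neg, Matrix.neg_mulVec,
        Matrix.neg_mulVec]
    · rw [if_neg hiK, if_neg hiK]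
      refine ⟨0, ?_⟩
      rw [Matrix.mulVec_zero, Matrix.mulVec_zero, Matrix.mulVec_zero, Matrix.zero_mulVec,
        Matrix.zero_mulVec]
  have hcy := hcyc ℓ F hF G R J (k + k') (sr ρ ρ') L hLfx hLT hLA w hw hneg
  -- the functional on the sum
  let Φ : (Fin (k + k') → F) →ₗ[F] F :=
    { toFun := fun x => φ (fun i => x (finSumFinEquiv (Sum.inl i))) +
        φ' (fun i => x (finSumFinEquiv (Sum.inr i)))
      map_add' := by
        intro x y
        have e1 : (fun i => (x + y) (finSumFinEquiv (Sum.inl i)))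
          = (fun i : Fin k => x (finSumFinEquiv (Sum.inl i : Fin k ⊕ Fin k'))) +
            fun i => y (finSumFinEquiv (Sum.inl i)) := rfl
        have e2 : (fun i => (x + y) (finSumFinEquiv (Sum.inr i)))
          = (fun i : Fin k' => x (finSumFinEquiv (Sum.inr i : Fin k ⊕ Fin k'))) +
            fun i => y (finSumFinEquiv (Sum.inr i)) := rfl
        rw [e1, e2, map_add, map_add]
        abel
      map_smul' := by
        intro a x
        have e1 : (fun i => (a • x) (finSumFinEquiv (Sum.inl i)))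
          = a • (fun i : Fin k => x (finSumFinEquiv (Sum.inl i : Fin k ⊕ Fin k'))) := rfl
        have e2 : (fun i => (a • x) (finSumFinEquiv (Sum.inr i)))
          = a • (fun i : Fin k' => x (finSumFinEquiv (Sum.inr i : Fin k ⊕ Fin k'))) := rfl
        rw [e1, e2, map_smul, map_smul, RingHom.id_apply, smul_add] }
  have hΦ : ∀ v v', Φ (pr v v') = φ v + φ' v' := by
    intro v v'
    change φ _ + φ' _ = _
    congr 2
    · funext i
      simp [pr]
    · funext i
      simp [pr]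
  have hvan : ∀ g ∈ R.PJ J, ∀ c : Fin m → F,
      φ ((ro ρ g).mulVec (X.mulVec c)) + φ' ((ro ρ' g).mulVec (X'.mulVec (S.mulVec c))) = 0 := by
    intro g hg c
    have e1 := hcy g hg (pr (X.mulVec c) (X'.mulVec (S.mulVec c))) ⟨c, rfl⟩
    have e0 : ∀ x ∈ Submodule.span F {x | ∃ u ∈ R.U, ∃ v' ∈ L,
        x = (ro (sr ρ ρ') (u * R.nw w)).mulVec v'}, Φ x = 0 := by
      intro x hx
      induction hx using Submodule.span_induction with
      | mem x hx =>
        obtain ⟨u, hu, _, ⟨d, rfl⟩, rfl⟩ := hx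
        rw [ro_sr, bd_mulVec, hΦ, ro_mul ρ (hUP hu) hwP, ro_mul ρ' (hUP hu) hwP,
          ← Matrix.mulVec_mulVec, ← Matrix.mulVec_mulVec _ (ro ρ' u), hφ u hu, hφ' u hu, hsum]
      | zero => exact map_zero Φ
      | add x y _ _ hx hy => rw [map_add, hx, hy, add_zero]
      | smul a x _ hx => rw [map_smul, hx, smul_zero]
    have e2 := e0 _ e1
    rwa [ro_sr, bd_mulVec, hΦ] at e2
  -- the group ring maps onto the product of the matrix algebras
  let nn : Bool → ℕ := fun b => bif b then k else k'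
  let rr : ∀ b : Bool, R.PJ J →* Matrix (Fin (nn b)) (Fin (nn b)) F := fun b =>
    match b with
    | true => ρ
    | false => ρ'
  have hrr : ∀ b, IsIrr (rr b) := by
    intro b
    cases b
    · exact hρ'
    · exact hρ
  have hinj : Function.Injective (fun b => tr (rr b)) := by
    intro b b' h
    cases b <;> cases b'
    · rfl
    · exact absurd h.symm hne
    · exact absurd h hne
    · rfl
  -- a vector
  obtain ⟨c, hc⟩ : ∃ c : Fin m → F, φ ((ro ρ (R.nw w)).mulVec (X.mulVec c)) ≠ 0 := by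
    refine ⟨Pi.single ⟨0, hm⟩ 1, ?_⟩
    rw [hφ1]
    change (Pi.single (⟨0, hm⟩ : Fin m) (1 : F) : Fin m → F) ⟨0, hm⟩ ≠ 0
    rw [Pi.single_eq_same]
    exact one_ne_zero
  let BB : ∀ b : Bool, Matrix (Fin (nn b)) (Fin (nn b)) F := fun b =>
    match b with
    | true => ro ρ (R.nw w)
    | false => 0
  obtain ⟨a, ha⟩ := hJ ℓ F hF (R.PJ J) Bool nn rr hrr hinj BB
  have ha1 : ev ρ a = ro ρ (R.nw w) := ha true
  have ha2 : ev ρ' a = 0 := ha false
  have := Fintype.ofFinite (R.PJ J)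
  have hev : ∀ {q : ℕ} (τ : R.PJ J →* Matrix (Fin q) (Fin q) F) (ψ : (Fin q → F) →ₗ[F] F)
      (x : Fin q → F), ψ ((ev τ a).mulVec x) = ∑ t, a t * ψ ((ro τ (t : G)).mulVec x) := by
    intro q τ ψ x
    rw [ev, finsum_eq_sum_of_fintype, Matrix.sum_mulVec, map_sum]
    apply Finset.sum_congr rfl
    intro t _
    rw [Matrix.smul_mulVec, map_smul, smul_eq_mul, ro_coe]
  apply hc
  have h5 := hev ρ φ (X.mulVec c)
  have h6 := hev ρ' φ' (X'.mulVec (S.mulVec c))
  rw [ha1] at h5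
  rw [ha2, Matrix.zero_mulVec, map_zero] at h6
  have h7 : ∑ t, a t * φ ((ro ρ (t : G)).mulVec (X.mulVec c)) +
      ∑ t, a t * φ' ((ro ρ' (t : G)).mulVec (X'.mulVec (S.mulVec c))) = 0 := by
    rw [← Finset.sum_add_distrib]
    apply Finset.sum_eq_zero
    intro t _
    rw [← mul_add, hvan t t.2 c, mul_zero]
  rw [← h6, add_zero] at h7
  rw [h5, h7]

end Pool.Agent.PP.X1.H14
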